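import Mathlib

/-!
# Extremal points of positive Boolean functions and linear read-once functions
-/

open Function

namespace Pool.Agent.Results.MP_61c8b8_co.ExtremalPoints

variable {V : Type}

/-- The variable `i` is relevant for `f`: there are points differing only in coordinate `i` with
different values. -/
def Relevant (f : (V → Bool) → Bool) (i : V) : Prop :=
  ∃ x y : V → Bool, (∀ j, j ≠ i → x j = y j) ∧ f x ≠ f y

/-- `x` is a minimal one of `f`. -/
def MinOne (f : (V → Bool) → Bool) (x : V → Bool) : Prop :=
  f x = true ∧ ∀ y, y < x → f y = false

/-- `x` is a maximal zero of `f`. -/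
def MaxZero (f : (V → Bool) → Bool) (x : V → Bool) : Prop :=
  f x = false ∧ ∀ y, x < y → f y = true

/-- The number of extremal points of `f`, i.e. of points which are minimal ones or maximal
zeros. -/
noncomputable def ext (f : (V → Bool) → Bool) : ℕ := {x | MinOne f x ∨ MaxZero f x}.ncard

/-- The function `x_{i_1} ∘_1 (x_{i_2} ∘_2 (⋯ ∘_{k-1} x_{i_k}))`; the list contains the pairs
`(i_1, ∘_1), …, (i_{k-1}, ∘_{k-1})`, where `true` stands for `∧` and `false` for `∨`, and `v` is
`i_k`. -/
def nested : List (V × Bool) → V → (V → Bool) → Bool
  | [], v, x => x v
  | (a, true) :: l, v, x => x a && nested l v x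
  | (a, false) :: l, v, x => x a || nested l v x

/-- `f` is linear read-once: it is constant, or its relevant variables can be listed in some order
(without repetition) such that `f` is the nested formula in them. -/
def LinearReadOnce (f : (V → Bool) → Bool) : Prop :=
  (∀ x y, f x = f y) ∨ ∃ (l : List (V × Bool)) (v : V), (l.map Prod.fst ++ [v]).Nodup ∧
    (∀ i, i ∈ l.map Prod.fst ++ [v] ↔ Relevant f i) ∧ ∀ x, f x = nested l v x

section

variable [DecidableEq V]

omit [DecidableEq V] in
theorem leF {b : Bool} (h : b ≤ false) : b = false := by
  revert h; cases b <;> decide

omit [DecidableEq V] in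
theorem leT {b : Bool} (h : true ≤ b) : b = true := by
  revert h; cases b <;> decide

/-- restriction of `f` to `x_i = c`, regarded as a function on the same cube -/
def res (f : (V → Bool) → Bool) (i : V) (c : Bool) (x : V → Bool) : Bool := f (update x i c)

/-- complement of a point -/
def neg (x : V → Bool) : V → Bool := fun j => !x j

/-- dual function -/
def dual (f : (V → Bool) → Bool) (x : V → Bool) : Bool := !f (neg x)

omit [DecidableEq V] in
@[simp] theorem neg_neg (x : V → Bool) : neg (neg x) = x := by funext j; simp [neg]

omit [DecidableEq V] in
theorem neg_le {x y : V → Bool} : neg x ≤ neg y ↔ y ≤ x := by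
  constructor
  · intro h j
    have := h j
    revert this
    simp only [neg]
    cases x j <;> cases y j <;> simp
  · intro h j
    have := h j
    revert this
    simp only [neg]
    cases x j <;> cases y j <;> simp

omit [DecidableEq V] in
theorem neg_lt {x y : V → Bool} : neg x < neg y ↔ y < x := by
  rw [lt_iff_le_not_ge, lt_iff_le_not_ge, neg_le, neg_le]

theorem neg_update (x : V → Bool) (i : V) (c : Bool) :
    neg (update x i c) = update (neg x) i (!c) := by
  funext j
  by_cases h : j = i
  · subst h; simp [neg]
  · simp [neg, h]

omit [DecidableEq V] in
@[simp] theorem dual_dual (f : (V → Bool) → Bool) : dual (dual f) = f := by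
  funext x; simp [dual]

omit [DecidableEq V] in
theorem dual_mono {f : (V → Bool) → Bool} (hf : Monotone f) : Monotone (dual f) := by
  intro x y h
  have := hf (neg_le.mpr h)
  revert this
  simp only [dual]
  cases f (neg x) <;> cases f (neg y) <;> simp

theorem res_dual (f : (V → Bool) → Bool) (i : V) (c : Bool) :
    res (dual f) i c = dual (res f i (!c)) := by
  funext x
  simp only [res, dual, neg_update]

theorem res_mono {f : (V → Bool) → Bool} (hf : Monotone f) (i : V) (c : Bool) :
    Monotone (res f i c) := by
  intro x y h
  apply hf
  intro j
  by_cases hj : j = i
  · subst hj; simp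
  · simp [hj, h j]

theorem res_le {f : (V → Bool) → Bool} (hf : Monotone f) (i : V) (x : V → Bool) :
    res f i false x ≤ res f i true x := by
  apply hf
  intro j
  by_cases hj : j = i
  · subst hj; simp
  · simp [hj]

theorem res_update (f : (V → Bool) → Bool) (i : V) (c d : Bool) (x : V → Bool) :
    res f i c (update x i d) = res f i c x := by
  simp [res]

theorem res_eq {f : (V → Bool) → Bool} {i : V} {c : Bool} {x : V → Bool} (h : x i = c) :
    res f i c x = f x := by
  subst h; simp [res]

omit [DecidableEq V] in
theorem minOne_dual {f : (V → Bool) → Bool} {x : V → Bool} :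
    MinOne (dual f) x ↔ MaxZero f (neg x) := by
  constructor
  · rintro ⟨h1, h2⟩
    refine ⟨by simpa [dual] using h1, fun y hy => ?_⟩
    have := h2 (neg y) (by rw [← neg_neg x]; exact neg_lt.mpr hy)
    simpa [dual] using this
  · rintro ⟨h1, h2⟩
    refine ⟨by simpa [dual] using h1, fun y hy => ?_⟩
    have := h2 (neg y) (neg_lt.mpr hy)
    simpa [dual] using this

omit [DecidableEq V] in
theorem relevant_dual {f : (V → Bool) → Bool} {i : V} : Relevant (dual f) i ↔ Relevant f i := by
  have key : ∀ g : (V → Bool) → Bool, Relevant g i → Relevant (dual g) i := by
    rintro g ⟨x, y, h1, h2⟩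
    refine ⟨neg x, neg y, fun j hj => by simp [neg, h1 j hj], ?_⟩
    simpa [dual] using h2
  constructor
  · intro h
    have := key _ h
    rwa [dual_dual] at this
  · exact key f

/-- number of minimal ones -/
noncomputable def o (f : (V → Bool) → Bool) : ℕ := {x | MinOne f x}.ncard

/-- number of maximal zeros -/
noncomputable def z (f : (V → Bool) → Bool) : ℕ := {x | MaxZero f x}.ncard

omit [DecidableEq V] in
theorem z_eq (f : (V → Bool) → Bool) : z f = o (dual f) := by
  have : {x | MaxZero f x} = neg '' {x | MinOne (dual f) x} := by
    ext x
    constructor
    · intro h
      refine ⟨neg x, ?_, neg_neg x⟩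
      change MinOne (dual f) (neg x)
      rw [minOne_dual, neg_neg]
      exact h
    · rintro ⟨y, hy, rfl⟩
      exact minOne_dual.mp hy
  rw [z, this, o, Set.ncard_image_of_injective]
  intro a b h
  rw [← neg_neg a, h, neg_neg]

variable [Fintype V]

omit [DecidableEq V] in
theorem ext_eq (f : (V → Bool) → Bool) : ext f = o f + z f := by
  rw [ext, o, z, ← Set.ncard_union_eq _ (Set.toFinite _) (Set.toFinite _)]
  · rfl
  · rw [Set.disjoint_left]
    rintro x ⟨h, _⟩ ⟨h', _⟩
    rw [h] at h'
    exact absurd h' (by simp)

omit [DecidableEq V] in
theorem ext_dual (f : (V → Bool) → Bool) : ext (dual f) = ext f := by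
  rw [ext_eq, ext_eq, z_eq, z_eq, dual_dual]
  ring

theorem minOne_res {f : (V → Bool) → Bool} {i : V} {c : Bool} {x : V → Bool}
    (h : MinOne (res f i c) x) : x i = false := by
  by_contra hx
  have hx : x i = true := by simpa using hx
  have hlt : update x i false < x := by
    rw [lt_iff_le_not_ge]
    constructor
    · intro j
      by_cases hj : j = i
      · subst hj; simp
      · simp [hj]
    · intro hle
      have := hle i
      rw [hx, update_self] at this
      exact absurd (leF this) (by simp)
  have := h.2 _ hlt
  rw [res_update, h.1] at this
  exact absurd this (by simp)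

/-- The counting formula for minimal ones. -/
theorem o_formula {f : (V → Bool) → Bool} (hf : Monotone f) (i : V) :
    o f = o (res f i false) + {x | MinOne (res f i true) x ∧ res f i false x = false}.ncard := by
  classical
  have hsplit : {x | MinOne f x} = {x | MinOne (res f i false) x} ∪
      (fun x => update x i true) '' {x | MinOne (res f i true) x ∧ res f i false x = false} := by
    ext x
    constructor
    · intro hx
      change MinOne f x at hx
      by_cases hi : x i = false
      · left
        refine ⟨by rw [res_eq hi]; exact hx.1, fun y hy => ?_⟩
        have hyi : y i = false := by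
          have := hy.le i
          rw [hi] at this
          exact leF this
        rw [res_eq hyi]
        exact hx.2 y hy
      · right
        have hi : x i = true := by simpa using hi
        have hlt : update x i false < x := by
          rw [lt_iff_le_not_ge]
          constructor
          · intro j
            by_cases hj : j = i
            · subst hj; simp
            · simp [hj]
          · intro hle
            have := hle i
            rw [hi, update_self] at this
            exact absurd (leF this) (by simp)
        refine ⟨update x i false, ⟨⟨?_, ?_⟩, ?_⟩, ?_⟩
        · rw [res_update, res_eq hi]; exact hx.1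
        · intro y hy
          have hyi : y i = false := by
            have := hy.le i
            simp only [update_self] at this
            exact leF this
          apply hx.2
          rw [lt_iff_le_not_ge]
          constructor
          · intro j
            by_cases hj : j = i
            · subst hj; simp [hi]
            · have := hy.le j
              simpa [hj] using this
          · intro hle
            apply hy.not_ge
            intro j
            by_cases hj : j = i
            · subst hj; simp
            · have := hle j
              simpa [hj] using this
        · rw [res_update]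
          exact hx.2 _ hlt
        · simp [← hi]
    · rintro (hx | ⟨y, ⟨hy, hy0⟩, rfl⟩)
      · have hxi := minOne_res hx
        refine ⟨by rw [← res_eq (f := f) hxi]; exact hx.1, fun y hy => ?_⟩
        have hyi : y i = false := by
          have := hy.le i
          rw [hxi] at this
          exact leF this
        rw [← res_eq (f := f) hyi]
        exact hx.2 y hy
      · have hyi := minOne_res hy
        refine ⟨hy.1, fun w hw => ?_⟩
        by_cases hwi : w i = false
        · have hwy : w ≤ y := by
            intro j
            by_cases hj : j = i
            · subst hj; rw [hwi]; exact Bool.false_le _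
            · have := hw.le j
              simpa [hj] using this
          have h1 := res_mono hf i false hwy
          rw [hy0, res_eq hwi] at h1
          exact leF h1
        · have hwi : w i = true := by simpa using hwi
          have hlt : update w i false < y := by
            rw [lt_iff_le_not_ge]
            constructor
            · intro j
              by_cases hj : j = i
              · subst hj; simp
              · have := hw.le j
                simpa [hj] using this
            · intro hle
              apply hw.not_ge
              intro j
              by_cases hj : j = i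
              · subst hj; simp [hwi]
              · have := hle j
                simpa [hj] using this
          have h1 := hy.2 _ hlt
          rw [res_update, res_eq hwi] at h1
          exact h1
  rw [o, hsplit, Set.ncard_union_eq _ (Set.toFinite _) (Set.toFinite _), Set.InjOn.ncard_image]
  · rfl
  · rintro a ⟨ha, _⟩ b ⟨hb, _⟩ hab
    have hai := minOne_res ha
    have hbi := minOne_res hb
    funext j
    by_cases hj : j = i
    · subst hj; rw [hai, hbi]
    · have := congrFun hab j
      simpa [hj] using this
  · rw [Set.disjoint_left]
    rintro x hx ⟨y, _, rfl⟩
    have := minOne_res hx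
    simp at this

/-- The counting formula for maximal zeros. -/
theorem z_formula {f : (V → Bool) → Bool} (hf : Monotone f) (i : V) :
    z f = z (res f i true) + {x | MaxZero (res f i false) x ∧ res f i true x = true}.ncard := by
  rw [z_eq, o_formula (dual_mono hf) i, z_eq, res_dual, res_dual]
  congr 1
  have : {x | MaxZero (res f i false) x ∧ res f i true x = true} =
      neg '' {x | MinOne (dual (res f i (!true))) x ∧ dual (res f i (!false)) x = false} := by
    ext x
    constructor
    · rintro ⟨h1, h2⟩
      refine ⟨neg x, ⟨?_, ?_⟩, neg_neg x⟩
      · rw [minOne_dual, neg_neg]; exact h1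
      · simpa [dual] using h2
    · rintro ⟨y, ⟨h1, h2⟩, rfl⟩
      refine ⟨minOne_dual.mp h1, ?_⟩
      simpa [dual] using h2
  rw [this, Set.ncard_image_of_injective]
  intro a b h
  rw [← neg_neg a, h, neg_neg]

omit [DecidableEq V] in
/-- below every one of a function there is a minimal one -/
theorem exists_minOne {f : (V → Bool) → Bool} {x : V → Bool} (hx : f x = true) :
    ∃ y, y ≤ x ∧ MinOne f y := by
  classical
  obtain ⟨y, hy, hmin⟩ := (Set.toFinite {y | y ≤ x ∧ f y = true}).exists_minimal ⟨x, le_rfl, hx⟩
  refine ⟨y, hy.1, hy.2, fun w hw => ?_⟩
  by_contra h
  have h : f w = true := by simpa using h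
  exact hw.not_ge (hmin ⟨hw.le.trans hy.1, h⟩ hw.le)

omit [DecidableEq V] in
theorem exists_maxZero {f : (V → Bool) → Bool} {x : V → Bool} (hx : f x = false) :
    ∃ y, x ≤ y ∧ MaxZero f y := by
  obtain ⟨y, hy, hm⟩ := exists_minOne (f := dual f) (x := neg x) (by simpa [dual] using hx)
  refine ⟨neg y, ?_, minOne_dual.mp hm⟩
  rw [← neg_neg x]
  exact neg_le.mpr hy

/-- the all-ones point -/
def top : V → Bool := fun _ => true

/-- the all-zeros point -/
def bot : V → Bool := fun _ => false

omit [DecidableEq V] [Fintype V] in
theorem le_top' (x : V → Bool) : x ≤ top := fun _ => Bool.le_true _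

omit [DecidableEq V] [Fintype V] in
theorem bot_le' (x : V → Bool) : bot ≤ x := fun _ => Bool.false_le _

omit [DecidableEq V] [Fintype V] in
/-- a monotone function with a relevant variable is `1` at the top and `0` at the bottom -/
theorem nonconst {f : (V → Bool) → Bool} (hf : Monotone f) {i : V} (hi : Relevant f i) :
    f top = true ∧ f bot = false := by
  obtain ⟨x, y, _, h⟩ := hi
  have h1 := hf (le_top' x)
  have h2 := hf (le_top' y)
  have h3 := hf (bot_le' x)
  have h4 := hf (bot_le' y)
  revert h h1 h2 h3 h4
  cases f x <;> cases f y <;> cases f top <;> cases f bot <;> simp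

/-! ### Constant functions -/

omit [DecidableEq V] in
theorem ext_const {f : (V → Bool) → Bool} (hc : ∀ x y, f x = f y) : ext f = 1 := by
  rw [ext_eq]
  cases hf : f top
  · have h1 : {x | MinOne f x} = ∅ := by
      ext x
      simp only [Set.mem_ofPred_eq, Set.mem_empty_iff_false, iff_false]
      rintro ⟨h, _⟩
      rw [hc x top, hf] at h
      exact absurd h (by simp)
    have h2 : {x | MaxZero f x} = {top} := by
      ext x
      simp only [Set.mem_ofPred_eq, Set.mem_singleton_iff]
      constructor
      · rintro ⟨_, h⟩
        by_contra hne
        have := h top (lt_of_le_of_ne (le_top' x) hne)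
        rw [hf] at this
        exact absurd this (by simp)
      · rintro rfl
        exact ⟨hf, fun y hy => absurd (le_top' y) hy.not_ge⟩
    rw [o, z, h1, h2]
    simp
  · have h1 : {x | MaxZero f x} = ∅ := by
      ext x
      simp only [Set.mem_ofPred_eq, Set.mem_empty_iff_false, iff_false]
      rintro ⟨h, _⟩
      rw [hc x top, hf] at h
      exact absurd h (by simp)
    have h2 : {x | MinOne f x} = {bot} := by
      ext x
      simp only [Set.mem_ofPred_eq, Set.mem_singleton_iff]
      constructor
      · rintro ⟨_, h⟩
        by_contra hne
        have := h bot (lt_of_le_of_ne (bot_le' x) (Ne.symm hne))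
        rw [hc bot top, hf] at this
        exact absurd this (by simp)
      · rintro rfl
        exact ⟨by rw [hc bot top]; exact hf, fun y hy => absurd (bot_le' y) hy.not_ge⟩
    rw [o, z, h1, h2]
    simp

omit [DecidableEq V] in
theorem const_of_no_relevant {f : (V → Bool) → Bool} (h : ∀ i, ¬ Relevant f i) :
    ∀ x y, f x = f y := by
  classical
  -- change the coordinates one by one
  have key : ∀ (s : Finset V) (x y : V → Bool), (∀ j, j ∉ s → x j = y j) → f x = f y := by
    intro s
    induction s using Finset.induction_on with
    | empty => intro x y hxy; exact congrArg f (funext fun j => hxy j (by simp))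
    | insert a s _ ih =>
      intro x y hxy
      have h1 : f (update x a (y a)) = f y := by
        apply ih
        intro j hj
        by_cases hja : j = a
        · subst hja; simp
        · simp only [ne_eq, hja, not_false_eq_true, update_of_ne]
          exact hxy j (by simp [hja, hj])
      rw [← h1]
      by_contra hne
      exact h a ⟨x, update x a (y a), fun j hj => by simp [hj], hne⟩
  intro x y
  exact key Finset.univ x y (by simp)

/-! ### Canalizing variables -/

/-- `f` vanishes when `x_a = 0` -/
def CanAnd (f : (V → Bool) → Bool) (a : V) : Prop := ∀ x, x a = false → f x = false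

/-- `f` is one when `x_a = 1` -/
def CanOr (f : (V → Bool) → Bool) (a : V) : Prop := ∀ x, x a = true → f x = true

omit [DecidableEq V] [Fintype V] in
theorem canAnd_dual {f : (V → Bool) → Bool} {a : V} : CanAnd (dual f) a ↔ CanOr f a := by
  constructor
  · intro h x hx
    have := h (neg x) (by simp [neg, hx])
    simpa [dual] using this
  · intro h x hx
    have := h (neg x) (by simp [neg, hx])
    simpa [dual] using this

omit [Fintype V] in
theorem not_relevant_res (f : (V → Bool) → Bool) (i : V) (c : Bool) : ¬ Relevant (res f i c) i := by
  rintro ⟨x, y, h1, h2⟩
  apply h2
  unfold res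
  congr 1
  funext j
  by_cases hj : j = i
  · subst hj; simp
  · simp [hj, h1 j hj]

omit [Fintype V] in
theorem relevant_of_res {f : (V → Bool) → Bool} {i j : V} {c : Bool}
    (h : Relevant (res f i c) j) : Relevant f j := by
  obtain ⟨x, y, h1, h2⟩ := h
  refine ⟨update x i c, update y i c, fun k hk => ?_, h2⟩
  by_cases hki : k = i
  · subst hki; simp
  · simp [hki, h1 k hk]

omit [Fintype V] in
theorem relevant_canAnd {f : (V → Bool) → Bool} {a : V} (ha : CanAnd f a) (hf : f top = true)
    (j : V) : Relevant f j ↔ j = a ∨ Relevant (res f a true) j := by
  constructor
  · intro h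
    by_cases hja : j = a
    · exact Or.inl hja
    · right
      obtain ⟨x, y, h1, h2⟩ := h
      have hxy : x a = y a := h1 a (Ne.symm hja)
      have hxa : x a = true := by
        by_contra hx
        have hx : x a = false := by simpa using hx
        rw [ha x hx, ha y (by rw [← hxy]; exact hx)] at h2
        exact h2 rfl
      refine ⟨x, y, h1, ?_⟩
      rw [res_eq hxa, res_eq (by rw [← hxy]; exact hxa)]
      exact h2
  · rintro (rfl | h)
    · refine ⟨top, update top j false, fun k hk => by simp [hk], ?_⟩
      rw [hf, ha _ (by simp)]
      simp
    · exact relevant_of_res h

theorem ext_canAnd {f : (V → Bool) → Bool} (hm : Monotone f) {a : V} (ha : CanAnd f a)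
    (hf : f top = true) : ext f = ext (res f a true) + 1 := by
  rw [ext_eq, ext_eq, o_formula hm a, z_formula hm a]
  have h0 : ∀ x, res f a false x = false := fun x => ha _ (by simp)
  have e1 : o (res f a false) = 0 := by
    have : {x | MinOne (res f a false) x} = ∅ := by
      ext x
      simp only [Set.mem_ofPred_eq, Set.mem_empty_iff_false, iff_false]
      rintro ⟨h, _⟩
      rw [h0] at h
      exact absurd h (by simp)
    rw [o, this, Set.ncard_empty]
  have e2 : {x | MinOne (res f a true) x ∧ res f a false x = false}.ncard = o (res f a true) := by
    simp only [h0, and_true]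
    rfl
  have e3 : {x | MaxZero (res f a false) x ∧ res f a true x = true} = {top} := by
    ext x
    simp only [Set.mem_ofPred_eq, Set.mem_singleton_iff]
    constructor
    · rintro ⟨⟨_, h⟩, _⟩
      by_contra hne
      have := h top (lt_of_le_of_ne (le_top' x) hne)
      rw [h0] at this
      exact absurd this (by simp)
    · rintro rfl
      refine ⟨⟨h0 _, fun y hy => absurd (le_top' y) hy.not_ge⟩, ?_⟩
      rw [res_eq (by rfl)]
      exact hf
  rw [e1, e2, e3, Set.ncard_singleton]
  ring

/-! ### Strongly essential variables -/

/-- the finite set of relevant variables -/
noncomputable def rel (f : (V → Bool) → Bool) : Finset V :=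
  open scoped Classical in Finset.univ.filter fun i => Relevant f i

omit [DecidableEq V] in
theorem mem_rel {f : (V → Bool) → Bool} {i : V} : i ∈ rel f ↔ Relevant f i := by
  classical
  simp [rel]

omit [DecidableEq V] in
theorem rel_dual (f : (V → Bool) → Bool) : rel (dual f) = rel f := by
  ext i
  rw [mem_rel, mem_rel, relevant_dual]

theorem exists_strong {f : (V → Bool) → Bool} (hne : (rel f).Nonempty) :
    ∃ i ∈ rel f, ∃ c : Bool, ∀ j ∈ rel f, j ≠ i → j ∈ rel (res f i c) := by
  classical
  obtain ⟨⟨i, c⟩, hic, hmax⟩ := Finset.exists_max_image ((rel f) ×ˢ (Finset.univ : Finset Bool))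
    (fun p => (rel (res f p.1 p.2)).card) (by
      obtain ⟨i, hi⟩ := hne
      exact ⟨(i, true), by simp [hi]⟩)
  simp only [Finset.mem_product, Finset.mem_univ, and_true] at hic
  refine ⟨i, hic, c, fun j hj hji => ?_⟩
  by_contra hcon
  rw [mem_rel] at hcon
  -- the restriction to `x_i = c` does not depend on `x_j`
  have hindep : ∀ (x : V → Bool) (b : Bool), res f i c (update x j b) = res f i c x := by
    intro x b
    by_contra hne
    exact hcon ⟨update x j b, x, fun k hk => by simp [hk], hne⟩
  have hb : ∃ b : Bool, Relevant (res f j b) i := by
    by_contra hno
    push Not at hno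
    have hno' : ∀ (b : Bool) (x : V → Bool), res f j b (update x i c) = res f j b x := by
      intro b x
      by_contra hne
      exact hno b ⟨update x i c, x, fun k hk => by simp [hk], hne⟩
    obtain ⟨x, y, h1, h2⟩ := mem_rel.mp hj
    apply h2
    have e : ∀ w : V → Bool, f w = res f i c w := by
      intro w
      have e1 : f w = res f j (w j) w := by simp [res]
      rw [e1, ← hno' (w j) w]
      have e2 : res f j (w j) (update w i c) = f (update w i c) := by
        unfold res
        congr 1
        funext k
        by_cases hk : k = j
        · subst hk; simp [hji]
        · simp [hk]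
      rw [e2]
      rfl
    rw [e x, e y, ← hindep x (y j)]
    congr 1
    funext k
    by_cases hk : k = j
    · subst hk; simp
    · simp [hk, h1 k hk]
  obtain ⟨b, hb⟩ := hb
  have hsub : insert i (rel (res f i c)) ⊆ rel (res f j b) := by
    intro k hk
    rw [Finset.mem_insert] at hk
    rcases hk with rfl | hk
    · exact mem_rel.mpr hb
    · rw [mem_rel] at hk ⊢
      obtain ⟨x, y, h1, h2⟩ := hk
      have hki : k ≠ i := by
        rintro rfl
        exact not_relevant_res f k c ⟨x, y, h1, h2⟩
      refine ⟨update x i c, update y i c, fun l hl => ?_, ?_⟩
      · by_cases hli : l = i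
        · subst hli; simp
        · simp [hli, h1 l hl]
      · have e : ∀ w : V → Bool, res f j b (update w i c) = res f i c w := by
          intro w
          rw [← hindep w b]
          unfold res
          rw [update_comm hji]
        rw [e, e]
        exact h2
  have h1 := Finset.card_le_card hsub
  rw [Finset.card_insert_of_notMem (by
    rw [mem_rel]; exact not_relevant_res f i c)] at h1
  have h2 := hmax (j, b) (by simp [hj])
  simp only at h2
  lia

/-! ### The main step -/

omit [DecidableEq V] [Fintype V] in
/-- a nonconstant linear read-once function has a canalizing variable -/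
theorem lro_can {f : (V → Bool) → Bool} (h : LinearReadOnce f) {i : V} (hi : Relevant f i) :
    ∃ a, CanAnd f a ∨ CanOr f a := by
  rcases h with h | ⟨l, v, _, _, hl⟩
  · obtain ⟨x, y, _, hne⟩ := hi
    exact absurd (h x y) hne
  · rcases l with _ | ⟨⟨a, op⟩, l⟩
    · exact ⟨v, Or.inl fun x hx => by rw [hl]; simpa [nested] using hx⟩
    · cases op
      · exact ⟨a, Or.inr fun x hx => by rw [hl]; simp [nested, hx]⟩
      · exact ⟨a, Or.inl fun x hx => by rw [hl]; simp [nested, hx]⟩

/-- The main step: if the restriction `f0` to `x_i = 0` depends on all the other variables. -/
theorem main_step {f : (V → Bool) → Bool} (hf : Monotone f) {i : V} (hi : Relevant f i)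
    (hall : ∀ j ∈ rel f, j ≠ i → j ∈ rel (res f i false))
    (ih1 : (rel (res f i false)).card + 1 ≤ ext (res f i false))
    (ih2 : ext (res f i false) = (rel (res f i false)).card + 1 → LinearReadOnce (res f i false)) :
    (rel f).card + 1 ≤ ext f ∧
      (ext f = (rel f).card + 1 → ∃ a, CanAnd f a ∨ CanOr f a) := by
  classical
  set f0 := res f i false with hf0
  set f1 := res f i true with hf1
  have hm0 : Monotone f0 := res_mono hf i false
  have hm1 : Monotone f1 := res_mono hf i true
  have hle : ∀ x, f0 x = true → f1 x = true := by
    intro x hx
    have := res_le hf i x
    rw [← hf0, hx] at this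
    exact leT this
  have hcard : (rel f).card = (rel f0).card + 1 := by
    have : rel f = insert i (rel f0) := by
      ext j
      rw [Finset.mem_insert]
      constructor
      · intro hj
        by_cases hji : j = i
        · exact Or.inl hji
        · exact Or.inr (hall j hj hji)
      · rintro (rfl | hj)
        · exact mem_rel.mpr hi
        · exact mem_rel.mpr (relevant_of_res (mem_rel.mp hj))
    rw [this, Finset.card_insert_of_notMem]
    rw [mem_rel]
    exact not_relevant_res f i false
  set C := {x | MinOne f1 x ∧ f0 x = false} with hC
  set D := {x | MaxZero f0 x ∧ f1 x = true} with hD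
  have eo : o f = o f0 + C.ncard := o_formula hf i
  have ez : z f = z f1 + D.ncard := z_formula hf i
  have hCpos : 1 ≤ C.ncard := by
    apply (Set.ncard_pos (Set.toFinite _)).mpr
    have : ∃ x, f0 x = false ∧ f1 x = true := by
      by_contra hno
      push Not at hno
      obtain ⟨x, y, h1, h2⟩ := hi
      apply h2
      have heq : ∀ w, f0 w = f1 w := by
        intro w
        cases h : f0 w
        · exact (Bool.eq_false_iff.mpr (hno w h)).symm
        · exact (hle w h).symm
      have e : ∀ w, f w = f0 w := by
        intro w
        cases h : w i
        · exact (res_eq h).symm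
        · rw [heq]; exact (res_eq h).symm
      rw [e, e]
      simp only [hf0, res]
      congr 1
      funext j
      by_cases hj : j = i
      · subst hj; simp
      · simp [hj, h1 j hj]
    obtain ⟨x, h0, h1⟩ := this
    obtain ⟨y, hy, hmin⟩ := exists_minOne h1
    refine ⟨y, hmin, ?_⟩
    have := hm0 hy
    rw [h0] at this
    exact leF this
  have hsub : {x | MaxZero f0 x} ⊆ {x | MaxZero f1 x} ∪ D := by
    intro x hx
    cases h : f1 x
    · left
      exact ⟨h, fun y hy => hle y (hx.2 y hy)⟩
    · right
      exact ⟨hx, h⟩
  have hdisj : Disjoint {x | MaxZero f1 x} D := by
    rw [Set.disjoint_left]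
    rintro x ⟨h, _⟩ ⟨_, h'⟩
    rw [h] at h'
    exact absurd h' (by simp)
  have hcardU : ({x | MaxZero f1 x} ∪ D).ncard = z f1 + D.ncard :=
    Set.ncard_union_eq hdisj (Set.toFinite _) (Set.toFinite _)
  have hz : z f0 ≤ z f1 + D.ncard := by
    rw [← hcardU]
    exact Set.ncard_le_ncard hsub (Set.toFinite _)
  have eext : ext f = o f0 + C.ncard + (z f1 + D.ncard) := by rw [ext_eq, eo, ez]
  have eext0 : ext f0 = o f0 + z f0 := ext_eq f0
  refine ⟨by lia, fun heq => ?_⟩
  -- equality
  have hc1 : C.ncard = 1 := by lia
  have hz0 : z f0 = z f1 + D.ncard := by lia
  have hlro := ih2 (by lia)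
  obtain ⟨xs, hxs⟩ := Set.ncard_eq_one.mp hc1
  have hxsC : xs ∈ C := by rw [hxs]; exact Set.mem_singleton _
  have huniq : ∀ x ∈ C, x = xs := by
    intro x hx
    rw [hxs] at hx
    exact hx
  have hZsub : ∀ x, MaxZero f1 x → MaxZero f0 x := by
    have : {x | MaxZero f0 x} = {x | MaxZero f1 x} ∪ D := by
      apply Set.eq_of_subset_of_ncard_le hsub _ (Set.toFinite _)
      rw [hcardU]
      exact hz0.ge
    intro x hx
    have h1 : x ∈ {x | MaxZero f1 x} ∪ D := Or.inl hx
    rw [← this] at h1
    exact h1
  -- description of `f1`
  have hf1desc : ∀ x, f1 x = true → f0 x = true ∨ xs ≤ x := by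
    intro x hx
    cases h : f0 x
    · right
      obtain ⟨y, hy, hmin⟩ := exists_minOne hx
      have hy0 : f0 y = false := by
        have := hm0 hy
        rw [h] at this
        exact leF this
      rw [← huniq y ⟨hmin, hy0⟩]
      exact hy
    · exact Or.inl rfl
  have hxs1 : f1 xs = true := hxsC.1.1
  have htop : f top = true := (nonconst hf hi).1
  have hle0 : ∀ x, f0 x = true → f x = true := by
    intro x hx
    have : update x i false ≤ x := by
      intro j
      by_cases hj : j = i
      · subst hj; simp
      · simp [hj]
    have := hf this
    change f0 x ≤ f x at this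
    rw [hx] at this
    exact leT this
  have hge1 : ∀ x, f x = true → f1 x = true := by
    intro x hx
    have : x ≤ update x i true := by
      intro j
      by_cases hj : j = i
      · subst hj; simp
      · simp [hj]
    have := hf this
    change f x ≤ f1 x at this
    rw [hx] at this
    exact leT this
  -- is there another relevant variable?
  by_cases hrel0 : (rel f0).Nonempty
  · obtain ⟨k, hk⟩ := hrel0
    obtain ⟨a, ha⟩ := lro_can hlro (mem_rel.mp hk)
    rcases ha with ha | ha
    · -- `f0` vanishes when `x_a = 0`
      by_cases hxa : xs a = true
      · refine ⟨a, Or.inl fun x hx => ?_⟩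
        by_contra hfx
        have hfx : f x = true := by simpa using hfx
        rcases hf1desc x (hge1 x hfx) with h | h
        · rw [ha x hx] at h
          exact absurd h (by simp)
        · have := h a
          rw [hxa, hx] at this
          exact absurd this (by simp)
      · have hxa : xs a = false := by simpa using hxa
        by_cases hbot : ∃ j, xs j = true
        · obtain ⟨j, hj⟩ := hbot
          have hja : j ≠ a := by
            rintro rfl
            rw [hxa] at hj
            exact absurd hj (by simp)
          -- the point `w`
          set w : V → Bool := update (update top a false) j false with hw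
          have hwa : w a = false := by simp [hw, hja.symm]
          have hwj : w j = false := by simp [hw]
          have hf1w : f1 w = false := by
            by_contra h
            have h : f1 w = true := by simpa using h
            rcases hf1desc w h with h | h
            · rw [ha w hwa] at h
              exact absurd h (by simp)
            · have := h j
              rw [hj, hwj] at this
              exact absurd this (by simp)
          obtain ⟨y, hwy, hy⟩ := exists_maxZero hf1w
          have hy0 := hZsub y hy
          have hyother : ∀ l, l ≠ a → l ≠ j → y l = true := by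
            intro l hla hlj
            have := hwy l
            simp only [hw, ne_eq, hlj, not_false_eq_true, update_of_ne, hla, top] at this
            exact leT this
          have hya : y a = true := by
            by_contra hya
            have hya : y a = false := by simpa using hya
            by_cases hyj : y j = true
            · have : xs ≤ y := by
                intro l
                by_cases hla : l = a
                · subst hla; rw [hxa]; exact Bool.false_le _
                · by_cases hlj : l = j
                  · subst hlj; rw [hyj]; exact Bool.le_true _
                  · rw [hyother l hla hlj]; exact Bool.le_true _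
              have := hm1 this
              rw [hxs1, hy.1] at this
              exact absurd this (by simp)
            · have hyj : y j = false := by simpa using hyj
              have hlt : y < update y j true := by
                rw [lt_iff_le_not_ge]
                constructor
                · intro l
                  by_cases hl : l = j
                  · subst hl; simp
                  · simp [hl]
                · intro h
                  have := h j
                  rw [hyj, update_self] at this
                  exact absurd (leF this) (by simp)
              have := hy0.2 _ hlt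
              rw [ha _ (by simp [hja.symm, hya])] at this
              exact absurd this (by simp)
          have hyj : y j = false := by
            by_contra hyj
            have hyj : y j = true := by simpa using hyj
            have : y = top := by
              funext l
              by_cases hla : l = a
              · subst hla; exact hya
              · by_cases hlj : l = j
                · subst hlj; exact hyj
                · exact hyother l hla hlj
            have h1 := hge1 top htop
            rw [← this, hy.1] at h1
            exact absurd h1 (by simp)
          refine ⟨j, Or.inl fun x hx => ?_⟩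
          by_contra hfx
          have hfx : f x = true := by simpa using hfx
          have hxy : x ≤ y := by
            intro l
            by_cases hlj : l = j
            · subst hlj; rw [hx]; exact Bool.false_le _
            · by_cases hla : l = a
              · subst hla; rw [hya]; exact Bool.le_true _
              · rw [hyother l hla hlj]; exact Bool.le_true _
          have := hm1 hxy
          rw [hge1 x hfx, hy.1] at this
          exact absurd this (by simp)
        · -- `xs` is the bottom point
          push Not at hbot
          refine ⟨i, Or.inr fun x hx => ?_⟩
          have hle : xs ≤ x := by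
            intro l
            have : xs l = false := by simpa using hbot l
            rw [this]
            exact Bool.false_le _
          have h1 := hm1 hle
          rw [hxs1] at h1
          have h2 : f1 x = true := leT h1
          rw [← h2]
          exact (res_eq hx).symm
    · -- `f0` is one when `x_a = 1`
      exact ⟨a, Or.inr fun x hx => hle0 x (ha x hx)⟩
  · -- `f0` is constant
    have hconst : ∀ x y, f0 x = f0 y := by
      apply const_of_no_relevant
      intro j hj
      exact hrel0 ⟨j, mem_rel.mpr hj⟩
    have h0 : ∀ x, f0 x = false := by
      intro x
      rw [hconst x xs]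
      exact hxsC.2
    refine ⟨i, Or.inl fun x hx => ?_⟩
    rw [← h0 x]
    exact (res_eq hx).symm

/-! ### Gluing back a canalizing variable -/

omit [Fintype V] in
theorem nested_update {l : List (V × Bool)} {v a : V} (h : a ∉ l.map Prod.fst ++ [v])
    (x : V → Bool) (c : Bool) : nested l v (update x a c) = nested l v x := by
  induction l with
  | nil =>
    simp only [List.map_nil, List.nil_append, List.mem_singleton] at h
    simp [nested, Ne.symm h]
  | cons p l ih =>
    obtain ⟨b, op⟩ := p
    simp only [List.map_cons, List.cons_append, List.mem_cons, not_or] at h
    have h1 := ih h.2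
    cases op <;> simp [nested, h1, Ne.symm h.1]

omit [Fintype V] in
theorem lro_canAnd {f : (V → Bool) → Bool} {a : V} (ha : CanAnd f a) (htop : f top = true)
    (h : LinearReadOnce (res f a true)) : LinearReadOnce f := by
  right
  have hrel := relevant_canAnd ha htop
  have hform : ∀ x, f x = (x a && res f a true x) := by
    intro x
    cases hx : x a
    · simp [ha x hx]
    · simp [res_eq hx]
  rcases h with h | ⟨l, v, hnd, hl, hv⟩
  · -- the restriction is constant, hence one
    have h1 : ∀ x, res f a true x = true := by
      intro x
      rw [h x top, res_eq (by rfl)]
      exact htop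
    refine ⟨[], a, by simp, ?_, ?_⟩
    · intro i
      simp only [List.map_nil, List.nil_append, List.mem_singleton]
      rw [hrel]
      constructor
      · intro h; exact Or.inl h
      · rintro (h | ⟨x, y, _, hne⟩)
        · exact h
        · exact absurd (h x y) hne
    · intro x
      rw [hform, h1]
      simp [nested]
  · have hanot : a ∉ l.map Prod.fst ++ [v] := by
      intro hmem
      exact not_relevant_res f a true ((hl a).mp hmem)
    refine ⟨(a, true) :: l, v, ?_, ?_, ?_⟩
    · simp only [List.map_cons, List.cons_append, List.nodup_cons]
      exact ⟨hanot, hnd⟩
    · intro i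
      simp only [List.map_cons, List.cons_append, List.mem_cons]
      rw [hrel, hl]
    · intro x
      rw [hform, hv]
      simp [nested]

omit [DecidableEq V] [Fintype V] in
theorem lro_dual {f : (V → Bool) → Bool} (h : LinearReadOnce f) : LinearReadOnce (dual f) := by
  rcases h with h | ⟨l, v, hnd, hl, hv⟩
  · left
    intro x y
    simp [dual, h (neg x) (neg y)]
  · right
    refine ⟨l.map fun p => (p.1, !p.2), v, ?_, ?_, ?_⟩
    · simpa [List.map_map, Function.comp_def] using hnd
    · intro i
      rw [relevant_dual, ← hl i]
      simp [List.map_map, Function.comp_def]
    · intro x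
      have key : ∀ (l : List (V × Bool)),
          (!nested l v (neg x)) = nested (l.map fun p => (p.1, !p.2)) v x := by
        intro l
        induction l with
        | nil => simp [nested, neg]
        | cons p l ih =>
          obtain ⟨b, op⟩ := p
          cases op
          · simp [nested, neg, ← ih]
          · simp [nested, neg, ← ih]
      rw [dual, hv, key]

/-- The bound and the equality case, one direction. -/
theorem forward : ∀ (n : ℕ) (f : (V → Bool) → Bool), Monotone f → (rel f).card = n →
    (rel f).card + 1 ≤ ext f ∧ (ext f = (rel f).card + 1 → LinearReadOnce f) := by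
  classical
  intro n
  induction n with
  | zero =>
    intro f _ hn
    have hconst : ∀ x y, f x = f y := by
      apply const_of_no_relevant
      intro i hi
      rw [Finset.card_eq_zero] at hn
      have := mem_rel.mpr hi
      rw [hn] at this
      simp at this
    exact ⟨by rw [ext_const hconst, hn], fun _ => Or.inl hconst⟩
  | succ n ih =>
    -- functions with a canalizing variable
    have canAnd : ∀ f : (V → Bool) → Bool, Monotone f → (rel f).card = n + 1 →
        (∃ a, CanAnd f a) → (ext f = (rel f).card + 1 → LinearReadOnce f) := by
      rintro f hm hn ⟨a, ha⟩ heq
      have hne : (rel f).Nonempty := by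
        rw [← Finset.card_pos]; lia
      obtain ⟨k, hk⟩ := hne
      have htop := (nonconst hm (mem_rel.mp hk)).1
      have hcard : (rel f).card = (rel (res f a true)).card + 1 := by
        have : rel f = insert a (rel (res f a true)) := by
          ext j
          rw [Finset.mem_insert, mem_rel, mem_rel, relevant_canAnd ha htop]
        rw [this, Finset.card_insert_of_notMem]
        rw [mem_rel]
        exact not_relevant_res f a true
      have h1 := ih (res f a true) (res_mono hm a true) (by lia)
      have h2 := ext_canAnd hm ha htop
      exact lro_canAnd ha htop (h1.2 (by lia))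
    have can : ∀ f : (V → Bool) → Bool, Monotone f → (rel f).card = n + 1 →
        (∃ a, CanAnd f a ∨ CanOr f a) → (ext f = (rel f).card + 1 → LinearReadOnce f) := by
      rintro f hm hn ⟨a, ha | ha⟩ heq
      · exact canAnd f hm hn ⟨a, ha⟩ heq
      · have h1 := canAnd (dual f) (dual_mono hm) (by rw [rel_dual]; exact hn)
          ⟨a, canAnd_dual.mpr ha⟩ (by rw [ext_dual, rel_dual]; exact heq)
        have := lro_dual h1
        rwa [dual_dual] at this
    -- the case of a strongly essential variable with constant `false`
    have strong : ∀ f : (V → Bool) → Bool, Monotone f → (rel f).card = n + 1 →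
        (∃ i ∈ rel f, ∀ j ∈ rel f, j ≠ i → j ∈ rel (res f i false)) →
        (rel f).card + 1 ≤ ext f ∧
          (ext f = (rel f).card + 1 → ∃ a, CanAnd f a ∨ CanOr f a) := by
      rintro f hm hn ⟨i, hi, hall⟩
      have hcard : (rel (res f i false)).card = n := by
        have : rel f = insert i (rel (res f i false)) := by
          ext j
          rw [Finset.mem_insert]
          constructor
          · intro hj
            by_cases hji : j = i
            · exact Or.inl hji
            · exact Or.inr (hall j hj hji)
          · rintro (rfl | hj)
            · exact hi
            · exact mem_rel.mpr (relevant_of_res (mem_rel.mp hj))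
        rw [this, Finset.card_insert_of_notMem] at hn
        · lia
        · rw [mem_rel]
          exact not_relevant_res f i false
      have h1 := ih (res f i false) (res_mono hm i false) hcard
      exact main_step hm (mem_rel.mp hi) hall h1.1 h1.2
    intro f hm hn
    have hne : (rel f).Nonempty := by
      rw [← Finset.card_pos]; lia
    obtain ⟨i, hi, c, hall⟩ := exists_strong hne
    have hstrong : (rel f).card + 1 ≤ ext f ∧
        (ext f = (rel f).card + 1 → ∃ a, CanAnd f a ∨ CanOr f a) := by
      cases c
      · exact strong f hm hn ⟨i, hi, hall⟩
      · have h1 := strong (dual f) (dual_mono hm) (by rw [rel_dual]; exact hn)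
          ⟨i, by rw [rel_dual]; exact hi, fun j hj hji => by
            rw [res_dual, rel_dual]
            rw [rel_dual] at hj
            exact hall j hj hji⟩
        rw [rel_dual, ext_dual] at h1
        refine ⟨h1.1, fun heq => ?_⟩
        obtain ⟨a, ha | ha⟩ := h1.2 heq
        · exact ⟨a, Or.inr (canAnd_dual.mp ha)⟩
        · refine ⟨a, Or.inl ?_⟩
          have := canAnd_dual (f := dual f) (a := a)
          rw [dual_dual] at this
          exact this.mpr ha
    exact ⟨hstrong.1, fun heq => can f hm hn (hstrong.2 heq) heq⟩

/-! ### The converse -/

omit [DecidableEq V] [Fintype V] in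
theorem nested_mono (l : List (V × Bool)) (v : V) : Monotone (nested l v) := by
  induction l with
  | nil => intro x y h; exact h v
  | cons p l ih =>
    obtain ⟨b, op⟩ := p
    intro x y h
    have h1 := h b
    have h2 := ih h
    revert h1 h2
    cases op <;> simp only [nested] <;> cases x b <;> cases y b <;> cases nested l v x <;>
      cases nested l v y <;> simp

omit [DecidableEq V] [Fintype V] in
theorem nested_top (l : List (V × Bool)) (v : V) : nested l v top = true := by
  induction l with
  | nil => rfl
  | cons p l ih =>
    obtain ⟨b, op⟩ := p
    cases op <;> simp [nested, ih, top]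

theorem ext_nested : ∀ (l : List (V × Bool)) (v : V), (l.map Prod.fst ++ [v]).Nodup →
    ext (nested l v) = l.length + 2 := by
  -- the case of a conjunction at the top
  have key : ∀ (l : List (V × Bool)) (v a : V), a ∉ l.map Prod.fst ++ [v] →
      ext (nested ((a, true) :: l) v) = ext (nested l v) + 1 := by
    intro l v a ha
    have hcan : CanAnd (nested ((a, true) :: l) v) a := by
      intro x hx
      simp [nested, hx]
    rw [ext_canAnd (nested_mono _ v) hcan (nested_top _ v)]
    congr 2
    funext x
    simp [res, nested, nested_update ha]
  have dual_nested : ∀ (l : List (V × Bool)) (v : V),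
      dual (nested l v) = nested (l.map fun p => (p.1, !p.2)) v := by
    intro l v
    funext x
    induction l with
    | nil => simp [dual, nested, neg]
    | cons p l ih =>
      obtain ⟨b, op⟩ := p
      simp only [dual] at ih
      cases op
      · simp [dual, nested, neg, ← ih]
      · simp [dual, nested, neg, ← ih]
  intro l
  induction l with
  | nil =>
    intro v _
    have hcan : CanAnd (nested ([] : List (V × Bool)) v) v := by
      intro x hx
      simpa [nested] using hx
    rw [ext_canAnd (nested_mono _ v) hcan (nested_top _ v), ext_const]
    · rfl
    · intro x y
      simp [res, nested]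
  | cons p l ih =>
    intro v hnd
    obtain ⟨b, op⟩ := p
    simp only [List.map_cons, List.cons_append, List.nodup_cons] at hnd
    have h1 := ih v hnd.2
    cases op
    · rw [← ext_dual, dual_nested]
      simp only [List.map_cons, Bool.not_false]
      rw [key _ v b (by simpa [List.map_map, Function.comp_def] using hnd.1)]
      rw [← dual_nested, ext_dual, h1]
      simp
    · rw [key l v b hnd.1, h1]
      simp

theorem backward {f : (V → Bool) → Bool} (h : LinearReadOnce f) :
    ext f = (rel f).card + 1 := by
  classical
  rcases h with h | ⟨l, v, hnd, hl, hv⟩
  · rw [ext_const h]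
    have : rel f = ∅ := by
      rw [Finset.eq_empty_iff_forall_notMem]
      intro i hi
      obtain ⟨x, y, _, hne⟩ := mem_rel.mp hi
      exact hne (h x y)
    rw [this]
    rfl
  · have h1 : f = nested l v := funext hv
    have h2 : rel f = (l.map Prod.fst ++ [v]).toFinset := by
      ext i
      rw [mem_rel, List.mem_toFinset, hl]
    rw [h2, List.toFinset_card_of_nodup hnd, h1, ext_nested l v hnd]
    simp

end

/-- For every positive Boolean function `f` of `m` variables with exactly `n` relevant variables
the number of extremal points is at least `n + 1`, and it equals `n + 1` if and only if `f` is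
linear read-once. -/
theorem result (m n : ℕ) (f : (Fin m → Bool) → Bool) (hf : Monotone f)
    (hn : {i | Relevant f i}.ncard = n) :
    n + 1 ≤ ext f ∧ (ext f = n + 1 ↔ LinearReadOnce f) := by
  classical
  have h1 : (rel f).card = n := by
    rw [← hn, ← Set.ncard_coe_finset]
    congr 1
    ext i
    simp [mem_rel]
  have h2 := forward n f hf h1
  rw [h1] at h2
  refine ⟨h2.1, h2.2, fun h => ?_⟩
  rw [backward h, h1]

end Pool.Agent.Results.MP_61c8b8_co.ExtremalPoints
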